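import Mathlib

set_option autoImplicit false

namespace Pool.Agent.Results.MP_a69800_lc.BinaryPrefixCodes

/-- The left stabiliser of `C`: all words `u` with `u C ⊆ C`. For `C` nonempty this is the maximal
left star of `C`. -/
def stab {α : Type} (C : Set (List α)) : Set (List α) := {u | ∀ x ∈ C, u ++ x ∈ C}

/-- One step of the procedure: `C` is replaced by its minimal tail with respect to its maximal left
star, i.e. by `C \ (B \ 1) C` with `B = stab C`. -/
def step {α : Type} (C : Set (List α)) : Set (List α) :=
  {w | w ∈ C ∧ ¬ ∃ p q : List α, p ≠ [] ∧ p ∈ stab C ∧ q ∈ C ∧ w = p ++ q}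

/-- The procedure started at `A` has stopped after `n` steps: the maximal left star of `C_n` is
`1`. -/
def StopsAt {α : Type} (A : Set (List α)) (n : ℕ) : Prop :=
  ∀ u : List α, u ∈ stab (step^[n] A) → u = []

/-- `A` is accepted by a finite complete deterministic automaton. -/
def Reg {α : Type} (A : Set (List α)) : Prop :=
  ∃ (σ : Type) (_ : Fintype σ) (M : DFA α σ), ∀ x : List α, x ∈ M.accepts ↔ x ∈ A

/-- `A` is prefix-free: no word of `A` is a prefix of another one. -/
def PrefixFree {α : Type} (A : Set (List α)) : Prop := ∀ x ∈ A, ∀ y ∈ A, x <+: y → x = y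

/-- The image `h(A) m` of `A` under the morphism `h` given by `g`, followed by the fixed
word `m`. -/
def code {α β : Type} (g : α → List β) (m : List β) (A : Set (List α)) : Set (List β) :=
  {w | ∃ x ∈ A, w = x.flatMap g ++ m}

section basic

variable {α : Type}

theorem step_nonempty {C : Set (List α)} (hC : C.Nonempty) : (step C).Nonempty := by
  classical
  obtain ⟨w, hw, hmin⟩ : ∃ w ∈ C, ∀ v ∈ C, w.length ≤ v.length := by
    obtain ⟨w, hw, h2⟩ := WellFounded.has_min (measure (List.length : List α → ℕ)).wf C hC
    refine ⟨w, hw, fun v hv => ?_⟩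
    have := h2 v hv
    simpa [measure, invImage, InvImage, WellFoundedRelation.rel, not_lt] using this
  refine ⟨w, hw, ?_⟩
  rintro ⟨p, q, hp, -, hq, rfl⟩
  have h1 := hmin q hq
  have h2 : 0 < p.length := List.length_pos_iff.mpr hp
  rw [List.length_append] at h1
  omega

theorem iter_nonempty {C : Set (List α)} (hC : C.Nonempty) (n : ℕ) : (step^[n] C).Nonempty := by
  induction n with
  | zero => exact hC
  | succ n ih => rw [Function.iterate_succ_apply']; exact step_nonempty ih

end basic

section coding

variable {α β : Type} {g : α → List β} {m : List β}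

/-- Decoding from the right with a suffix code. -/
theorem decode (hg : ∀ a b, g a <:+ g b → a = b) (hne : ∀ a, g a ≠ []) (x : List α) :
    ∀ (u : List β) (y : List α), u ++ x.flatMap g = y.flatMap g →
      ∃ u' : List α, u = u'.flatMap g ∧ y = u' ++ x := by
  induction x using List.reverseRecOn with
  | nil =>
      intro u y h
      exact ⟨y, by simpa using h, by simp⟩
  | append_singleton x a ih =>
      intro u y h
      rcases List.eq_nil_or_concat y with rfl | ⟨y', b, rfl⟩
      · simp only [List.flatMap_append, List.flatMap_singleton, List.flatMap_nil,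
          List.append_eq_nil_iff] at h
        exact absurd h.2.2 (hne a)
      · rw [List.concat_eq_append] at h ⊢
        simp only [List.flatMap_append, List.flatMap_singleton, ← List.append_assoc] at h
        have h1 : g a <:+ (y'.flatMap g) ++ g b := ⟨_, h⟩
        have h2 : g b <:+ (y'.flatMap g) ++ g b := List.suffix_append _ _
        have hab : a = b := by
          rcases List.suffix_or_suffix_of_suffix h1 h2 with h3 | h3
          · exact hg _ _ h3
          · exact (hg _ _ h3).symm
        subst hab
        obtain ⟨u', hu', hy'⟩ := ih u y' (List.append_cancel_right h)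
        exact ⟨u', hu', by rw [hy', List.append_assoc]⟩

theorem decode_m (hg : ∀ a b, g a <:+ g b → a = b) (hne : ∀ a, g a ≠ []) {x : List α}
    {u : List β} {y : List α} (h : u ++ (x.flatMap g ++ m) = y.flatMap g ++ m) :
    ∃ u' : List α, u = u'.flatMap g ∧ y = u' ++ x := by
  rw [← List.append_assoc] at h
  exact decode hg hne x u y (List.append_cancel_right h)

theorem flatMap_inj (hg : ∀ a b, g a <:+ g b → a = b) (hne : ∀ a, g a ≠ []) {x y : List α}
    (h : x.flatMap g = y.flatMap g) : x = y := by
  obtain ⟨u', hu', hy⟩ := decode hg hne x [] y (by simpa using h)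
  rcases u' with _ | ⟨a, u'⟩
  · simpa using hy.symm
  · simp only [List.flatMap_cons] at hu'
    have := (List.append_eq_nil_iff.1 hu'.symm).1
    exact absurd this (hne a)

theorem mem_code_append (hg : ∀ a b, g a <:+ g b → a = b) (hne : ∀ a, g a ≠ [])
    {A : Set (List α)} {u x : List α} :
    u.flatMap g ++ (x.flatMap g ++ m) ∈ code g m A ↔ u ++ x ∈ A := by
  constructor
  · rintro ⟨y, hy, h⟩
    rw [← List.append_assoc, ← List.flatMap_append] at h
    have := flatMap_inj hg hne (List.append_cancel_right h)
    rw [this]; exact hy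
  · intro h
    exact ⟨u ++ x, h, by rw [List.flatMap_append, List.append_assoc]⟩

theorem stab_code (hg : ∀ a b, g a <:+ g b → a = b) (hne : ∀ a, g a ≠ []) {A : Set (List α)}
    (hA : A.Nonempty) {u : List β} :
    u ∈ stab (code g m A) ↔ ∃ u' ∈ stab A, u = u'.flatMap g := by
  constructor
  · intro hu
    obtain ⟨x0, hx0⟩ := hA
    obtain ⟨y, hy, h⟩ := hu _ ⟨x0, hx0, rfl⟩
    obtain ⟨u', rfl, -⟩ := decode_m hg hne h
    refine ⟨u', fun x hx => ?_, rfl⟩
    exact (mem_code_append hg hne).1 (hu _ ⟨x, hx, rfl⟩)
  · rintro ⟨u', hu', rfl⟩ w ⟨x, hx, rfl⟩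
    exact (mem_code_append hg hne).2 (hu' x hx)

theorem step_code (hg : ∀ a b, g a <:+ g b → a = b) (hne : ∀ a, g a ≠ []) {A : Set (List α)}
    (hA : A.Nonempty) : step (code g m A) = code g m (step A) := by
  ext w
  constructor
  · rintro ⟨⟨x, hx, rfl⟩, hw⟩
    refine ⟨x, ⟨hx, ?_⟩, rfl⟩
    rintro ⟨p, q, hp, hpA, hq, rfl⟩
    refine hw ⟨p.flatMap g, q.flatMap g ++ m, ?_, (stab_code hg hne hA).2 ⟨p, hpA, rfl⟩,
      ⟨q, hq, rfl⟩, by rw [List.flatMap_append, List.append_assoc]⟩
    intro h
    rcases p with _ | ⟨a, p⟩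
    · exact hp rfl
    · rw [List.flatMap_cons] at h
      exact hne a (List.append_eq_nil_iff.1 h).1
  · rintro ⟨x, hx, rfl⟩
    refine ⟨⟨x, hx.1, rfl⟩, ?_⟩
    rintro ⟨p, q, hp, hpA, ⟨q', hq', rfl⟩, h⟩
    obtain ⟨p', hp', rfl⟩ := (stab_code hg hne hA).1 hpA
    refine hx.2 ⟨p', q', ?_, hp', hq', ?_⟩
    · rintro rfl
      exact hp rfl
    · rw [← List.append_assoc, ← List.flatMap_append] at h
      exact flatMap_inj hg hne (List.append_cancel_right h)

theorem iter_code (hg : ∀ a b, g a <:+ g b → a = b) (hne : ∀ a, g a ≠ []) {A : Set (List α)}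
    (hA : A.Nonempty) (n : ℕ) : step^[n] (code g m A) = code g m (step^[n] A) := by
  induction n with
  | zero => rfl
  | succ n ih =>
      rw [Function.iterate_succ_apply', ih, step_code hg hne (iter_nonempty hA n),
        Function.iterate_succ_apply']

theorem stops_code (hg : ∀ a b, g a <:+ g b → a = b) (hne : ∀ a, g a ≠ []) {A : Set (List α)}
    (hA : A.Nonempty) (n : ℕ) : StopsAt (code g m A) n ↔ StopsAt A n := by
  unfold StopsAt
  rw [iter_code hg hne hA]
  constructor
  · intro h u hu
    have h1 := h (u.flatMap g) ((stab_code hg hne (iter_nonempty hA n)).2 ⟨u, hu, rfl⟩)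
    rcases u with _ | ⟨a, u⟩
    · rfl
    · rw [List.flatMap_cons] at h1
      exact absurd (List.append_eq_nil_iff.1 h1).1 (hne a)
  · intro h u hu
    obtain ⟨u', hu', rfl⟩ := (stab_code hg hne (iter_nonempty hA n)).1 hu
    rw [h u' hu']
    rfl

end coding

section regular

theorem reg_iff {α : Type} (A : Set (List α)) :
    Reg A ↔ (Set.range (fun u : List α => {y | u ++ y ∈ A})).Finite := by
  constructor
  · rintro ⟨σ, hσ, M, hM⟩
    have h1 : Language.IsRegular M.accepts := ⟨σ, hσ, M, rfl⟩
    have h2 := h1.finite_range_leftQuotient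
    refine Set.Finite.subset h2 ?_
    rintro _ ⟨u, rfl⟩
    refine ⟨u, ?_⟩
    ext y
    exact hM (u ++ y)
  · intro h
    let L : Language α := A
    have h1 : (Set.range L.leftQuotient).Finite := h
    obtain ⟨σ, hσ, M, hM⟩ := Language.IsRegular.of_finite_range_leftQuotient h1
    exact ⟨σ, hσ, M, fun x => by rw [hM]; exact Iff.rfl⟩

variable {α : Type} {g : α → List Bool} {m : List Bool} {l : ℕ}

/-- Decoding from the left with a block code. -/
theorem split_left (hl : ∀ a, (g a).length = l) (hm : m.length = l) (x : List α) :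
    ∀ u y : List Bool, u ++ y = x.flatMap g ++ m →
      ∃ (v : List α) (r : List Bool), u = v.flatMap g ++ r ∧ r.length ≤ l := by
  induction x with
  | nil =>
      intro u y h
      refine ⟨[], u, by simp, ?_⟩
      have := congrArg List.length h
      simp at this
      omega
  | cons a x ih =>
      intro u y h
      rcases Nat.lt_or_ge l u.length with h1 | h1
      · rw [List.flatMap_cons, List.append_assoc] at h
        have h2 : g a <+: u := by
          apply List.prefix_of_prefix_length_le (l₃ := u ++ y)
          · rw [h]; exact List.prefix_append _ _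
          · exact List.prefix_append _ _
          · rw [hl]; omega
        obtain ⟨u', rfl⟩ := h2
        rw [List.append_assoc] at h
        obtain ⟨v, r, hv, hr⟩ := ih u' y (List.append_cancel_left h)
        exact ⟨a :: v, r, by rw [hv, List.flatMap_cons, List.append_assoc], hr⟩
      · exact ⟨[], u, by simp, h1⟩

theorem strip_left (hl : ∀ a, (g a).length = l) (hm : m.length = l) (hinj : Function.Injective g)
    (hgm : ∀ a, g a ≠ m) (v : List α) : ∀ (w : List Bool) (x : List α),
      v.flatMap g ++ w = x.flatMap g ++ m → ∃ x', x = v ++ x' ∧ w = x'.flatMap g ++ m := by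
  induction v with
  | nil => intro w x h; exact ⟨x, rfl, by simpa using h⟩
  | cons a v ih =>
      intro w x h
      rw [List.flatMap_cons, List.append_assoc] at h
      rcases x with _ | ⟨b, x⟩
      · rw [List.flatMap_nil, List.nil_append] at h
        have h1 := List.append_inj (s₁ := g a) (s₂ := m) (t₁ := v.flatMap g ++ w) (t₂ := [])
          (by rw [h, List.append_nil]) (by rw [hl, hm])
        exact absurd h1.1 (hgm a)
      · rw [List.flatMap_cons, List.append_assoc] at h
        have h1 := List.append_inj h (by rw [hl, hl])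
        obtain rfl := hinj h1.1
        obtain ⟨x', hx', hw⟩ := ih w x h1.2
        exact ⟨x', by rw [hx']; rfl, hw⟩

theorem prefixFree_code (hl : ∀ a, (g a).length = l) (hm : m.length = l)
    (hinj : Function.Injective g) (hgm : ∀ a, g a ≠ m) (A : Set (List α)) :
    PrefixFree (code g m A) := by
  rintro _ ⟨x, hx, rfl⟩ _ ⟨y, hy, rfl⟩ ⟨s, hs⟩
  rw [List.append_assoc] at hs
  obtain ⟨y', rfl, h⟩ := strip_left hl hm hinj hgm x _ _ hs
  rcases y' with _ | ⟨a, y'⟩
  · rw [List.append_nil]
  · rw [List.flatMap_cons, List.append_assoc] at h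
    have h1 := List.append_inj h (by rw [hl, hm])
    exact absurd h1.1.symm (hgm a)

theorem reg_code (hl : ∀ a, (g a).length = l) (hm : m.length = l)
    (hinj : Function.Injective g) (hgm : ∀ a, g a ≠ m) {A : Set (List α)} (hA : Reg A) :
    Reg (code g m A) := by
  rw [reg_iff] at hA ⊢
  have hf : ({r : List Bool | r.length ≤ l} ×ˢ
      (Set.range (fun u : List α => {y | u ++ y ∈ A}))).Finite :=
    (List.finite_length_le Bool l).prod hA
  refine Set.Finite.subset ((hf.image (fun z => {y | z.1 ++ y ∈ code g m z.2})).union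
    (Set.finite_singleton (∅ : Set (List Bool)))) ?_
  rintro _ ⟨u, rfl⟩
  by_cases hne : ({y | u ++ y ∈ code g m A} : Set (List Bool)) = ∅
  · right; exact hne
  · left
    obtain ⟨y, x, hx, hy⟩ := Set.nonempty_iff_ne_empty.2 hne
    obtain ⟨v, r, rfl, hr⟩ := split_left hl hm x u y hy
    refine ⟨(r, {y | v ++ y ∈ A}), ⟨hr, ⟨v, rfl⟩⟩, ?_⟩
    ext z
    constructor
    · rintro ⟨x', hx', hz⟩
      exact ⟨v ++ x', hx', by rw [List.flatMap_append, List.append_assoc, hz, List.append_assoc]⟩
    · rintro ⟨x', hx', hz⟩
      rw [List.append_assoc] at hz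
      obtain ⟨x'', rfl, hz'⟩ := strip_left hl hm hinj hgm v _ _ hz
      exact ⟨x'', hx', hz'⟩

/-- A block code of length `card α + 1` together with a marker block. -/
theorem exists_block (α : Type) [Fintype α] : ∃ (g : α → List Bool) (m : List Bool) (l : ℕ),
    0 < l ∧ (∀ a, (g a).length = l) ∧ m.length = l ∧ Function.Injective g ∧ ∀ a, g a ≠ m := by
  classical
  let e := Fintype.equivFin α
  refine ⟨fun a => List.ofFn (fun i : Fin (Fintype.card α + 1) => decide (i.val = (e a).val + 1)),
    List.ofFn (fun i : Fin (Fintype.card α + 1) => decide (i.val = 0)), Fintype.card α + 1,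
    Nat.succ_pos _, fun a => List.length_ofFn, List.length_ofFn, ?_, ?_⟩
  · intro a b h
    have h1 := List.ofFn_injective h
    have h2 := congrFun h1 ⟨(e a).val + 1, by have := (e a).isLt; omega⟩
    simp only [decide_true, Bool.true_eq, decide_eq_true_eq] at h2
    exact e.injective (Fin.ext (by omega))
  · intro a h
    have h1 := List.ofFn_injective h
    have h2 := congrFun h1 ⟨0, by omega⟩
    simp at h2

end regular

/-- The star removal procedure for an arbitrary regular language is simulated, step by step, by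
the procedure for a regular prefix code over a two-letter alphabet. Hence the question is
equivalent to its restriction to binary regular prefix codes. -/
theorem result :
    (∀ (α : Type) [Fintype α] (A : Set (List α)), A.Nonempty → Reg A →
      ∃ P : Set (List Bool), P.Nonempty ∧ Reg P ∧ PrefixFree P ∧
        ∀ n : ℕ, StopsAt P n ↔ StopsAt A n) ∧
    ((∀ P : Set (List Bool), P.Nonempty → Reg P → PrefixFree P → ∃ n, StopsAt P n) ↔
      ∀ (α : Type) [Fintype α] (A : Set (List α)), A.Nonempty → Reg A → ∃ n, StopsAt A n) := by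
  have h2 : ∀ (α : Type) [Fintype α] (A : Set (List α)), A.Nonempty → Reg A →
      ∃ P : Set (List Bool), P.Nonempty ∧ Reg P ∧ PrefixFree P ∧
        ∀ n : ℕ, StopsAt P n ↔ StopsAt A n := by
    intro α _ A hA hreg
    obtain ⟨g, m, l, hl0, hl, hm, hinj, hgm⟩ := exists_block α
    have hne : ∀ a, g a ≠ [] := by
      intro a h
      have := hl a
      rw [h] at this
      simp at this
      omega
    have hg : ∀ a b, g a <:+ g b → a = b := by
      intro a b h
      exact hinj (h.eq_of_length (by rw [hl, hl]))
    obtain ⟨x, hx⟩ := hA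
    exact ⟨code g m A, ⟨_, x, hx, rfl⟩, reg_code hl hm hinj hgm hreg,
      prefixFree_code hl hm hinj hgm A, stops_code hg hne ⟨x, hx⟩⟩
  refine ⟨h2, ?_, ?_⟩
  · intro h α _ A hA hreg
    obtain ⟨P, hP, hPreg, hPf, hPn⟩ := h2 α A hA hreg
    obtain ⟨n, hn⟩ := h P hP hPreg hPf
    exact ⟨n, (hPn n).1 hn⟩
  · intro h P hP hPreg _
    exact h Bool P hP hPreg

end Pool.Agent.Results.MP_a69800_lc.BinaryPrefixCodes
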