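import Mathlib

set_option autoImplicit false

namespace Pool.Agent.Results.MP_a69800_lc.DisjointQuotients

/-- The left stabiliser of `C`: all words `u` with `u C ⊆ C`. For `C` nonempty this is the maximal
left star of `C`. -/
def stab {α : Type} (C : Set (List α)) : Set (List α) := {u | ∀ x ∈ C, u ++ x ∈ C}

/-- One step of the procedure: `C` is replaced by its minimal tail with respect to its maximal left
star, i.e. by `C \ (B \ 1) C` with `B = stab C`. -/
def step {α : Type} (C : Set (List α)) : Set (List α) :=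
  {w | w ∈ C ∧ ¬ ∃ p q : List α, p ≠ [] ∧ p ∈ stab C ∧ q ∈ C ∧ w = p ++ q}

/-- The procedure started at `A` has stopped after `n` steps: the maximal left star of `C_n` is
`1`. -/
def StopsAt {α : Type} (A : Set (List α)) (n : ℕ) : Prop :=
  ∀ u : List α, u ∈ stab (step^[n] A) → u = []

/-- The left quotient `u⁻¹ C = {x | u x ∈ C}`. -/
def quot {α : Type} (C : Set (List α)) (u : List α) : Set (List α) := {x | u ++ x ∈ C}

section basic

variable {α : Type}

theorem step_subset {C : Set (List α)} {w : List α} (h : w ∈ step C) : w ∈ C := h.1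

theorem step_nonempty {C : Set (List α)} (hC : C.Nonempty) : (step C).Nonempty := by
  classical
  obtain ⟨w, hw, hmin⟩ : ∃ w ∈ C, ∀ v ∈ C, w.length ≤ v.length := by
    obtain ⟨w, hw, h2⟩ := WellFounded.has_min (measure (List.length : List α → ℕ)).wf C hC
    refine ⟨w, hw, fun v hv => ?_⟩
    have := h2 v hv
    simpa [measure, invImage, InvImage, WellFoundedRelation.rel, not_lt] using this
  refine ⟨w, hw, ?_⟩
  rintro ⟨p, q, hp, -, hq, rfl⟩
  have h1 := hmin q hq
  have h2 : 0 < p.length := List.length_pos_iff.mpr hp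
  rw [List.length_append] at h1
  omega

theorem iter_nonempty {C : Set (List α)} (hC : C.Nonempty) (n : ℕ) : (step^[n] C).Nonempty := by
  induction n with
  | zero => exact hC
  | succ n ih => rw [Function.iterate_succ_apply']; exact step_nonempty ih

theorem iter_mono (C : Set (List α)) {m n : ℕ} (h : m ≤ n) {w : List α} (hw : w ∈ step^[n] C) :
    w ∈ step^[m] C := by
  induction n with
  | zero => obtain rfl : m = 0 := by omega
            exact hw
  | succ n ih =>
      rcases Nat.lt_or_ge m (n + 1) with h1 | h1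
      · rw [Function.iterate_succ_apply'] at hw
        exact ih (by omega) (step_subset hw)
      · obtain rfl : m = n + 1 := by omega
        exact hw

/-- `s` repeated `n` times. -/
def wpow (s : List α) : ℕ → List α
  | 0 => []
  | n + 1 => wpow s n ++ s

theorem wpow_add (s : List α) (m n : ℕ) : wpow s (m + n) = wpow s m ++ wpow s n := by
  induction n with
  | zero => simp [wpow]
  | succ n ih => rw [← Nat.add_assoc]; simp [wpow, ih]

theorem stab_wpow {C : Set (List α)} {s : List α} (hs : s ∈ stab C) (n : ℕ) :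
    ∀ x ∈ C, wpow s n ++ x ∈ C := by
  induction n with
  | zero => intro x hx; simpa [wpow] using hx
  | succ n ih =>
      intro x hx
      simp only [wpow, List.append_assoc]
      exact ih _ (hs x hx)

/-- The invariant of the procedure: all words begin with `t`, and every persistent word `p` has a
power `p^j` such that for words `v` longer than `t` the quotients by `v` and by `p^j v` are equal or
disjoint. -/
def Inv (t : List α) (C : Set (List α)) : Prop :=
  (∀ x ∈ C, t <+: x) ∧
  ∀ p : List α, (∃ x ∈ C, ∀ r : ℕ, wpow p r ++ x ∈ C) → ∃ j : ℕ, 1 ≤ j ∧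
    ∀ v : List α, t.length < v.length → (∃ y, v ++ y ∈ C ∧ wpow p j ++ v ++ y ∈ C) →
      ∀ z, v ++ z ∈ C ↔ wpow p j ++ v ++ z ∈ C

theorem det_step {t : List α} {C : Set (List α)} (hI : Inv t C) {g g' : List α}
    (hg : t.length < g.length) (hg' : t.length < g'.length)
    (hs : ∀ s, t <:+ g ++ s → t <:+ g' ++ s)
    (hQ : ∀ z, g ++ z ∈ C ↔ g' ++ z ∈ C) (halive : ∃ y, g ++ y ∈ step C) {y : List α}
    (hy : g' ++ y ∈ step C) : g ++ y ∈ step C := by
  have hyC : g ++ y ∈ C := (hQ y).2 hy.1
  refine ⟨hyC, ?_⟩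
  rintro ⟨p, q, hp, hpC, hq, he⟩
  obtain ⟨q', rfl⟩ := hI.1 q hq
  rcases Nat.lt_or_ge (p.length + t.length) g.length with h1 | h1
  · -- the word `g` is killed
    have h2 : p <+: g := by
      apply List.prefix_of_prefix_length_le (l₃ := g ++ y)
      · rw [he]; exact List.prefix_append _ _
      · exact List.prefix_append _ _
      · omega
    obtain ⟨v, rfl⟩ := h2
    rw [List.append_assoc] at he
    have h3 : v ++ y = t ++ q' := List.append_cancel_left he
    have hv : t.length < v.length := by
      rw [List.length_append] at h1; omega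
    obtain ⟨y1, hy1⟩ := halive
    obtain ⟨j, hj1, hj⟩ := hI.2 p ⟨_, hq, fun r => stab_wpow hpC r _ hq⟩
    have h4 := hj v hv ⟨y, by rw [h3]; exact hq, by
      rw [List.append_assoc, h3]; exact stab_wpow hpC j _ hq⟩
    have h5 : v ++ y1 ∈ C := by
      rw [h4 y1]
      obtain ⟨i, rfl⟩ : ∃ i, j = i + 1 := ⟨j - 1, by omega⟩
      have h6 := stab_wpow hpC i _ hy1.1
      simpa [wpow, List.append_assoc] using h6
    exact hy1.2 ⟨p, v ++ y1, hp, hpC, h5, by simp⟩
  · have h2 : g <+: p ++ t := by
      apply List.prefix_of_prefix_length_le (l₃ := g ++ y)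
      · exact List.prefix_append _ _
      · rw [he, ← List.append_assoc]; exact List.prefix_append _ _
      · simp; omega
    obtain ⟨s, hs1⟩ := h2
    have h3 : y = s ++ q' := by
      rw [← List.append_assoc, ← hs1, List.append_assoc] at he
      exact List.append_cancel_left he
    obtain ⟨p', hp'⟩ := hs s ⟨p, hs1.symm⟩
    have hp'ne : p' ≠ [] := by
      rintro rfl
      have := congrArg List.length hp'
      simp at this
      omega
    have hp'C : p' ∈ stab C := by
      intro x hx
      obtain ⟨x', rfl⟩ := hI.1 x hx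
      rw [← List.append_assoc, hp', List.append_assoc, ← hQ, ← List.append_assoc, hs1,
        List.append_assoc]
      exact hpC _ hx
    refine hy.2 ⟨p', t ++ q', hp'ne, hp'C, hq, ?_⟩
    rw [h3, ← List.append_assoc, ← List.append_assoc, hp']

theorem suffix_long {t p v : List α} (hv : t.length ≤ v.length) : t <:+ p ++ v ↔ t <:+ v := by
  constructor
  · intro h
    exact List.suffix_of_suffix_length_le h (List.suffix_append _ _) hv
  · intro h
    exact h.trans (List.suffix_append _ _)

theorem inv_step {t : List α} {C : Set (List α)} (hI : Inv t C) : Inv t (step C) := by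
  refine ⟨fun x hx => hI.1 x hx.1, ?_⟩
  rintro p0 ⟨x0, hx0, hr0⟩
  obtain ⟨j, hj1, hj⟩ := hI.2 p0 ⟨x0, hx0.1, fun r => (hr0 r).1⟩
  refine ⟨j, hj1, ?_⟩
  generalize wpow p0 j = p at hj ⊢
  rintro v hv ⟨y, hy1, hy2⟩ z
  have hQ := hj v hv ⟨y, hy1.1, hy2.1⟩
  have hpv : t.length < (p ++ v).length := by rw [List.length_append]; omega
  have hs : ∀ s, t <:+ v ++ s ↔ t <:+ p ++ v ++ s := by
    intro s
    rw [List.append_assoc, suffix_long (p := p) (v := v ++ s) (by rw [List.length_append]; omega)]
  constructor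
  · intro h
    exact det_step hI hpv hv (fun s => (hs s).2) (fun z => (hQ z).symm) ⟨y, hy2⟩ h
  · intro h
    exact det_step hI hv hpv (fun s => (hs s).1) hQ ⟨y, hy1⟩ h

theorem inv_iter {t : List α} {C : Set (List α)} (hI : Inv t C) (n : ℕ) : Inv t (step^[n] C) := by
  induction n with
  | zero => exact hI
  | succ n ih => rw [Function.iterate_succ_apply']; exact inv_step ih

theorem det_iter {t : List α} {C : Set (List α)} (hI : Inv t C) {g g' : List α}
    (hg : t.length < g.length) (hg' : t.length < g'.length)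
    (hs : ∀ s, t <:+ g ++ s ↔ t <:+ g' ++ s)
    (hQ : ∀ z, g ++ z ∈ C ↔ g' ++ z ∈ C) (n : ℕ) (h1 : ∃ y, g ++ y ∈ step^[n] C)
    (h2 : ∃ y, g' ++ y ∈ step^[n] C) : ∀ z, g ++ z ∈ step^[n] C ↔ g' ++ z ∈ step^[n] C := by
  induction n with
  | zero => exact hQ
  | succ n ih =>
      obtain ⟨y1, hy1⟩ := h1
      obtain ⟨y2, hy2⟩ := h2
      have ih' := ih ⟨y1, iter_mono C (Nat.le_succ n) hy1⟩ ⟨y2, iter_mono C (Nat.le_succ n) hy2⟩
      rw [Function.iterate_succ_apply'] at hy1 hy2 ⊢
      intro z
      constructor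
      · intro h
        exact det_step (inv_iter hI n) hg' hg (fun s => (hs s).2) (fun z => (ih' z).symm)
          ⟨y2, hy2⟩ h
      · intro h
        exact det_step (inv_iter hI n) hg hg' (fun s => (hs s).1) ih' ⟨y1, hy1⟩ h

/-- Two different steps use different quotients. -/
theorem separate {t : List α} {C : Set (List α)} (hC : C.Nonempty) (hI : Inv t C) {m n : ℕ}
    (hmn : m < n) {u v : List α} (hu : u ≠ []) (hv : v ≠ []) (hu1 : u ∈ stab (step^[m] C))
    (hv1 : v ∈ stab (step^[n] C)) (hQ : ∀ z, u ++ t ++ z ∈ C ↔ v ++ t ++ z ∈ C) : False := by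
  have hlu : 0 < u.length := List.length_pos_iff.mpr hu
  have hlv : 0 < v.length := List.length_pos_iff.mpr hv
  obtain ⟨x, hx⟩ := iter_nonempty hC n
  obtain ⟨x', rfl⟩ := (inv_iter hI n).1 x hx
  have hxm : t ++ x' ∈ step^[m] C := iter_mono C hmn.le hx
  have hs : ∀ s, t <:+ u ++ t ++ s ↔ t <:+ v ++ t ++ s := by
    intro s
    rw [List.append_assoc, List.append_assoc,
      suffix_long (p := u) (v := t ++ s) (by rw [List.length_append]; omega),
      suffix_long (p := v) (v := t ++ s) (by rw [List.length_append]; omega)]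
  have key := det_iter hI (g := u ++ t) (g' := v ++ t) (by rw [List.length_append]; omega)
    (by rw [List.length_append]; omega) hs hQ m
    ⟨x', by rw [List.append_assoc]; exact hu1 _ hxm⟩
    ⟨x', iter_mono C hmn.le (by rw [List.append_assoc]; exact hv1 _ hx)⟩
  have hvm : v ∈ stab (step^[m] C) := by
    intro z hz
    obtain ⟨z', rfl⟩ := (inv_iter hI m).1 z hz
    rw [← List.append_assoc, ← key, List.append_assoc]
    exact hu1 _ hz
  have h1 : v ++ (t ++ x') ∈ step^[m + 1] C := iter_mono C hmn (hv1 _ hx)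
  rw [Function.iterate_succ_apply'] at h1
  exact h1.2 ⟨v, t ++ x', hv, hvm, hxm, rfl⟩

theorem main {t : List α} {A : Set (List α)} (hA : A.Nonempty) (hI : Inv t A)
    {S : Set (Set (List α))} (hS : S.Finite)
    (hmem : ∀ u : List α, u ≠ [] → (quot A (u ++ t)).Nonempty → quot A (u ++ t) ∈ S) :
    ∃ n ≤ S.ncard, StopsAt A n := by
  by_contra hcon
  push Not at hcon
  have h1 : ∀ n : Fin (S.ncard + 1), ∃ u : List α, u ∈ stab (step^[(n : ℕ)] A) ∧ u ≠ [] := by
    intro n
    have := hcon n (by omega)
    unfold StopsAt at this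
    push Not at this
    exact this
  choose u hu hne using h1
  have hinj : Function.Injective (fun n : Fin (S.ncard + 1) => quot A (u n ++ t)) := by
    intro m n hmn
    have hQ : ∀ z, u m ++ t ++ z ∈ A ↔ u n ++ t ++ z ∈ A := fun z => by
      have := Set.ext_iff.1 hmn z
      exact this
    by_contra hne'
    rcases lt_or_gt_of_ne hne' with h | h
    · exact separate hA hI (Fin.lt_def.1 h) (hne m) (hne n) (hu m) (hu n) hQ
    · exact separate hA hI (Fin.lt_def.1 h) (hne n) (hne m) (hu n) (hu m)
        (fun z => (hQ z).symm)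
  have hsub : Set.range (fun n : Fin (S.ncard + 1) => quot A (u n ++ t)) ⊆ S := by
    rintro _ ⟨n, rfl⟩
    apply hmem _ (hne n)
    obtain ⟨x, hx⟩ := iter_nonempty hA n
    obtain ⟨x', rfl⟩ := (inv_iter hI n).1 x hx
    refine ⟨x', ?_⟩
    show u n ++ t ++ x' ∈ A
    rw [List.append_assoc]
    exact iter_mono A (Nat.zero_le _) (hu n _ hx)
  have h2 := Set.ncard_le_ncard hsub hS
  rw [← Set.image_univ, Set.ncard_image_of_injective _ hinj, Set.ncard_univ, Nat.card_eq_fintype_card,
    Fintype.card_fin] at h2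
  omega

/-- `A` is closed under suffix substitution at windows of length `k`, i.e. strictly
`(k + 1)`-testable; for `k = 1` these are the local languages. -/
def SuffixSubst (k : ℕ) (A : Set (List α)) : Prop :=
  ∀ p p' w x y : List α, w.length = k → p ++ w ++ x ∈ A → p' ++ w ++ y ∈ A → p ++ w ++ y ∈ A

end basic

section sharp

/-- The weakly increasing words over `{0, ..., k}` that end in `k` and use only letters `≥ n`. -/
def incr (k n : ℕ) : Set (List (Fin (k + 1))) :=
  {w | w.Pairwise (· ≤ ·) ∧ (∃ v, w = v ++ [Fin.last k]) ∧ ∀ a ∈ w, n ≤ a.val}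

theorem singleton_stab {k n : ℕ} (hn : n ≤ k) :
    [(⟨n, by omega⟩ : Fin (k + 1))] ∈ stab (incr k n) := by
  rintro x ⟨h1, ⟨v, hv⟩, h3⟩
  refine ⟨?_, ⟨⟨n, by omega⟩ :: v, by rw [hv]; rfl⟩, ?_⟩
  · rw [List.singleton_append, List.pairwise_cons]
    exact ⟨fun a ha => by rw [Fin.le_def]; exact h3 a ha, h1⟩
  · intro a ha
    rw [List.singleton_append, List.mem_cons] at ha
    rcases ha with rfl | ha
    · exact le_rfl
    · exact h3 a ha

theorem step_incr {k n : ℕ} (hn : n < k) : step (incr k n) = incr k (n + 1) := by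
  ext w
  constructor
  · rintro ⟨⟨h1, ⟨v, hv⟩, h3⟩, h4⟩
    refine ⟨h1, ⟨v, hv⟩, ?_⟩
    intro a ha
    by_contra hlt
    have han : a.val = n := by have := h3 a ha; omega
    rcases w with _ | ⟨b, w'⟩
    · simp at ha
    · have hb : b.val = n := by
        have hb1 := h3 b (by simp)
        rcases List.mem_cons.1 ha with rfl | ha'
        · exact han
        · have := (List.pairwise_cons.1 h1).1 a ha'
          rw [Fin.le_def] at this
          omega
      rcases v with _ | ⟨c, v'⟩
      · simp only [List.nil_append, List.cons.injEq] at hv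
        have := hv.1
        rw [this] at hb
        simp at hb
        omega
      · simp only [List.cons_append, List.cons.injEq] at hv
        refine h4 ⟨[b], w', by simp, ?_, ⟨(List.pairwise_cons.1 h1).2, ⟨v', hv.2⟩,
          fun x hx => h3 x (by simp [hx])⟩, by simp⟩
        have : b = ⟨n, by omega⟩ := Fin.ext hb
        rw [this]
        exact singleton_stab hn.le
  · rintro ⟨h1, ⟨v, hv⟩, h3⟩
    refine ⟨⟨h1, ⟨v, hv⟩, fun a ha => by have := h3 a ha; omega⟩, ?_⟩
    rintro ⟨p, q, hp, hpC, hq, rfl⟩
    have h4 : [(⟨n, by omega⟩ : Fin (k + 1)), Fin.last k] ∈ incr k n := by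
      refine ⟨?_, ⟨[⟨n, by omega⟩], rfl⟩, ?_⟩
      · simp [Fin.le_last]
      · intro a ha
        simp only [List.mem_cons, List.not_mem_nil, or_false] at ha
        rcases ha with rfl | rfl
        · exact le_rfl
        · simp; omega
    have h5 := (hpC _ h4).1
    rw [List.pairwise_append] at h5
    obtain ⟨a, ha⟩ := List.exists_mem_of_ne_nil p hp
    have h6 := h5.2.2 a ha ⟨n, by omega⟩ (by simp)
    have h7 := h3 a (by simp [ha])
    rw [Fin.le_def] at h6
    simp only at h6
    omega

theorem iter_incr {k n : ℕ} (hn : n ≤ k) : step^[n] (incr k 0) = incr k n := by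
  induction n with
  | zero => rfl
  | succ n ih => rw [Function.iterate_succ_apply', ih (by omega), step_incr (by omega)]

theorem incr_not_stops {k n : ℕ} (hn : n ≤ k) : ¬ StopsAt (incr k 0) n := by
  intro h
  have h1 := h [(⟨n, by omega⟩ : Fin (k + 1))] (by rw [iter_incr hn]; exact singleton_stab hn)
  simp at h1

theorem incr_local (k : ℕ) : SuffixSubst 1 (incr k 0) := by
  intro p p' w x y hw h1 h2
  obtain ⟨a, rfl⟩ := List.length_eq_one_iff.1 hw
  refine ⟨?_, ?_, fun _ _ => Nat.zero_le _⟩
  · have h3 := h1.1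
    have h4 := h2.1
    rw [List.append_assoc, List.pairwise_append] at h3 h4 ⊢
    refine ⟨h3.1, h4.2.1, ?_⟩
    intro b hb c hc
    have h5 : b ≤ a := h3.2.2 b hb a (by simp)
    rw [List.singleton_append, List.mem_cons] at hc
    rcases hc with rfl | hc
    · exact h5
    · refine h5.trans ?_
      have h6 := h4.2.1
      rw [List.singleton_append, List.pairwise_cons] at h6
      exact h6.1 c hc
  · obtain ⟨v, hv⟩ := h2.2.1
    rcases List.eq_nil_or_concat y with rfl | ⟨y', b, rfl⟩
    · rw [List.append_nil] at hv ⊢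
      have h7 := List.append_inj' hv rfl
      have h8 : a = Fin.last k := by simpa using h7.2
      exact ⟨p, by rw [h8]⟩
    · have h7 : p' ++ [a] ++ y' ++ [b] = v ++ [Fin.last k] := by
        rw [← hv]; simp
      have h8 := (List.append_inj' h7 rfl).2
      have h9 : b = Fin.last k := by simpa using h8
      exact ⟨p ++ [a] ++ y', by rw [h9]; simp⟩

theorem incr_nonempty (k : ℕ) : (incr k 0).Nonempty :=
  ⟨[Fin.last k], by simp, ⟨[], rfl⟩, fun _ _ => Nat.zero_le _⟩

end sharp

/-- The nonempty left quotients `(u t)⁻¹ A` of `A`, `u` running over the nonempty words. -/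
def quotients {α : Type} (t : List α) (A : Set (List α)) : Set (Set (List α)) :=
  {L | L.Nonempty ∧ ∃ u : List α, u ≠ [] ∧ L = quot A (u ++ t)}

/-- `A` is synchronising after `t`: all words of `A` begin with `t`, and every persistent word `p`
(that is `p^r x ∈ A` for some `x ∈ A` and all `r`) has a power `p^j`, `j ≥ 1`, such that for every
letter `a` the languages `(t a)⁻¹ A` and `(p^j t a)⁻¹ A` are equal or disjoint. -/
def Synchronising {α : Type} (t : List α) (A : Set (List α)) : Prop :=
  (∀ x ∈ A, t <+: x) ∧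
  ∀ p : List α, (∃ x ∈ A, ∀ r : ℕ, wpow p r ++ x ∈ A) → ∃ j : ℕ, 1 ≤ j ∧ ∀ a : α,
    quot A (t ++ [a]) = quot A (wpow p j ++ t ++ [a]) ∨
    Disjoint (quot A (t ++ [a])) (quot A (wpow p j ++ t ++ [a]))

theorem inv_of_sync {α : Type} {t : List α} {A : Set (List α)} (h : Synchronising t A) :
    Inv t A := by
  refine ⟨h.1, ?_⟩
  intro p hp
  obtain ⟨j, hj1, hj⟩ := h.2 p hp
  refine ⟨j, hj1, ?_⟩
  rintro v hv ⟨y, hy1, hy2⟩ z
  have h1 : t <+: v := by
    apply List.prefix_of_prefix_length_le (l₃ := v ++ y) (h.1 _ hy1) (List.prefix_append _ _)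
    omega
  obtain ⟨v', rfl⟩ := h1
  rcases v' with _ | ⟨a, v'⟩
  · simp at hv
  · rcases hj a with h2 | h2
    · have h3 := Set.ext_iff.1 h2 (v' ++ z)
      simpa [quot] using h3
    · exfalso
      have h3 : (v' ++ y) ∈ quot A (t ++ [a]) := by
        show t ++ [a] ++ (v' ++ y) ∈ A
        simpa using hy1
      have h4 : (v' ++ y) ∈ quot A (wpow p j ++ t ++ [a]) := by
        show wpow p j ++ t ++ [a] ++ (v' ++ y) ∈ A
        simpa using hy2
      exact Set.disjoint_left.1 h2 h3 h4

theorem sync_of_subst {α : Type} {A : Set (List α)} (h : SuffixSubst 1 A) :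
    Synchronising [] A := by
  refine ⟨fun x _ => List.nil_prefix, fun p _ => ⟨1, le_rfl, fun a => ?_⟩⟩
  rw [or_iff_not_imp_right, Set.not_disjoint_iff]
  rintro ⟨x, hx1, hx2⟩
  have hx1' : [] ++ [a] ++ x ∈ A := hx1
  have hx2' : wpow p 1 ++ [a] ++ x ∈ A := by
    have : wpow p 1 ++ [] ++ [a] ++ x ∈ A := hx2
    simpa using this
  ext y
  constructor
  · intro hy
    have hy' : [] ++ [a] ++ y ∈ A := hy
    show wpow p 1 ++ [] ++ [a] ++ y ∈ A
    rw [List.append_nil]
    exact h _ _ _ _ _ rfl hx2' hy'
  · intro hy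
    have hy' : wpow p 1 ++ [a] ++ y ∈ A := by
      have : wpow p 1 ++ [] ++ [a] ++ y ∈ A := hy
      simpa using this
    exact h _ _ _ _ _ rfl hx1' hy'

theorem quotients_subset {α : Type} {t : List α} {A : Set (List α)}
    (h : SuffixSubst (t.length + 1) A) :
    quotients t A ⊆ Set.range (fun a : α => {y | ∃ p : List α, p ++ (a :: t) ++ y ∈ A}) := by
  rintro _ ⟨⟨x, hx⟩, u, hu, rfl⟩
  obtain ⟨u', a, rfl⟩ : ∃ u' a, u = u' ++ [a] := by
    rcases List.eq_nil_or_concat u with h2 | ⟨u', a, h2⟩
    · exact absurd h2 hu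
    · exact ⟨u', a, by rw [h2, List.concat_eq_append]⟩
  refine ⟨a, ?_⟩
  have hx' : u' ++ (a :: t) ++ x ∈ A := by
    have : u' ++ [a] ++ t ++ x ∈ A := hx
    simpa using this
  ext y
  constructor
  · rintro ⟨p, hp⟩
    have := h u' p (a :: t) x y (by simp) hx' hp
    show u' ++ [a] ++ t ++ y ∈ A
    simpa using this
  · intro hy
    have hy' : u' ++ [a] ++ t ++ y ∈ A := hy
    exact ⟨u', by simpa using hy'⟩

/-- **Termination of the star removal procedure for synchronising languages**, with an optimal
bound for the number of steps. `step^[n] A` is the `n`-th tail `C_n`. -/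
theorem result :
    (∀ (α : Type) (A : Set (List α)) (t : List α), A.Nonempty → Synchronising t A →
      (quotients t A).Finite → ∃ n ≤ (quotients t A).ncard, StopsAt A n) ∧
    ∀ k : ℕ, ∃ A : Set (List (Fin (k + 1))), A.Nonempty ∧ Synchronising [] A ∧
      (quotients [] A).Finite ∧ (quotients [] A).ncard = k + 1 ∧
      StopsAt A (k + 1) ∧ ∀ n ≤ k, ¬ StopsAt A n := by
  have h1 : ∀ (α : Type) (A : Set (List α)) (t : List α), A.Nonempty → Synchronising t A →
      (quotients t A).Finite → ∃ n ≤ (quotients t A).ncard, StopsAt A n := by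
    intro α A t hA ht hfin
    exact main hA (inv_of_sync ht) hfin (fun u hu hne => ⟨hne, u, hu, rfl⟩)
  refine ⟨h1, ?_⟩
  intro k
  have hsub := quotients_subset (t := []) (incr_local k)
  have hfin : (quotients [] (incr k 0)).Finite := (Set.finite_range _).subset hsub
  have hle : (quotients [] (incr k 0)).ncard ≤ k + 1 := by
    refine (Set.ncard_le_ncard hsub (Set.finite_range _)).trans ?_
    rw [← Set.image_univ]
    refine (Set.ncard_image_le (Set.finite_univ)).trans ?_
    rw [Set.ncard_univ, Nat.card_eq_fintype_card, Fintype.card_fin]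
  obtain ⟨n, hn, h⟩ := h1 _ _ [] (incr_nonempty k) (sync_of_subst (incr_local k)) hfin
  have hkn : k < n := by
    rcases Nat.lt_or_ge k n with h2 | h2
    · exact h2
    · exact absurd h (incr_not_stops h2)
  obtain rfl : n = k + 1 := by omega
  exact ⟨incr k 0, incr_nonempty k, sync_of_subst (incr_local k), hfin, by omega, h,
    fun n hn => incr_not_stops hn⟩

end Pool.Agent.Results.MP_a69800_lc.DisjointQuotients
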