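import Mathlib

set_option autoImplicit false

namespace Pool.Agent.Results.MP_a69800_lc.ReversibleLanguages

/-- The left stabiliser of `C`: all words `u` with `u C ⊆ C`. For `C` nonempty this is the maximal
left star of `C`. -/
def stab {α : Type} (C : Set (List α)) : Set (List α) := {u | ∀ x ∈ C, u ++ x ∈ C}

/-- One step of the procedure: `C` is replaced by its minimal tail with respect to its maximal left
star, i.e. by `C \ (B \ 1) C` with `B = stab C`. -/
def step {α : Type} (C : Set (List α)) : Set (List α) :=
  {w | w ∈ C ∧ ¬ ∃ p q : List α, p ≠ [] ∧ p ∈ stab C ∧ q ∈ C ∧ w = p ++ q}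

/-- The procedure started at `A` has stopped after `n` steps: the maximal left star of `C_n` is
`1`. -/
def StopsAt {α : Type} (A : Set (List α)) (n : ℕ) : Prop :=
  ∀ u : List α, u ∈ stab (step^[n] A) → u = []

/-- `s` repeated `n` times. -/
def wpow {α : Type} (s : List α) : ℕ → List α
  | 0 => []
  | n + 1 => wpow s n ++ s

/-- The state reached by a partial deterministic automaton from `q` on the word `w`. -/
def run {α σ : Type} (M : σ → α → Option σ) (q : σ) : List α → Option σ
  | [] => some q
  | a :: w => (M q a).bind fun r => run M r w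

section basic

variable {α : Type}

theorem step_nonempty {C : Set (List α)} (hC : C.Nonempty) : (step C).Nonempty := by
  classical
  obtain ⟨w, hw, hmin⟩ : ∃ w ∈ C, ∀ v ∈ C, w.length ≤ v.length := by
    obtain ⟨w, hw, h2⟩ := WellFounded.has_min (measure (List.length : List α → ℕ)).wf C hC
    refine ⟨w, hw, fun v hv => ?_⟩
    have := h2 v hv
    simpa [measure, invImage, InvImage, WellFoundedRelation.rel, not_lt] using this
  refine ⟨w, hw, ?_⟩
  rintro ⟨p, q, hp, -, hq, rfl⟩
  have h1 := hmin q hq
  have h2 : 0 < p.length := List.length_pos_iff.mpr hp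
  rw [List.length_append] at h1
  omega

theorem wpow_add (s : List α) (m n : ℕ) : wpow s (m + n) = wpow s m ++ wpow s n := by
  induction n with
  | zero => simp [wpow]
  | succ n ih => rw [← Nat.add_assoc]; simp [wpow, ih]

theorem stab_wpow {C : Set (List α)} {s : List α} (hs : s ∈ stab C) (n : ℕ) :
    ∀ x ∈ C, wpow s n ++ x ∈ C := by
  induction n with
  | zero => intro x hx; simpa [wpow] using hx
  | succ n ih =>
      intro x hx
      simp only [wpow, List.append_assoc]
      exact ih _ (hs x hx)

/-- If every persistent word has a power in the first maximal left star, the procedure stops after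
at most one step. -/
theorem one_step {A : Set (List α)} (hA : A.Nonempty)
    (h : ∀ s : List α, (∃ x ∈ A, ∀ r : ℕ, wpow s r ++ x ∈ A) → ∃ j : ℕ, wpow s (j + 1) ∈ stab A) :
    ∃ n ≤ 1, StopsAt A n := by
  refine ⟨1, le_rfl, ?_⟩
  intro s hs
  simp only [Function.iterate_one] at hs
  by_contra hne
  obtain ⟨c, hc⟩ := step_nonempty hA
  obtain ⟨j, hj⟩ := h s ⟨c, hc.1, fun r => (stab_wpow hs r c hc).1⟩
  have hj0 : wpow s (j + 1) ≠ [] := by
    simp only [wpow]
    intro h5
    exact hne (List.append_eq_nil_iff.1 h5).2
  exact (stab_wpow hs (j + 1) c hc).2 ⟨wpow s (j + 1), c, hj0, hj, hc.1, rfl⟩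

theorem run_append {σ : Type} (M : σ → α → Option σ) (u v : List α) : ∀ q : σ,
    run M q (u ++ v) = (run M q u).bind fun r => run M r v := by
  induction u with
  | nil => intro q; rfl
  | cons a u ih =>
      intro q
      simp only [List.cons_append, run]
      cases M q a with
      | none => rfl
      | some r => simpa using ih r

theorem run_inj {σ : Type} (M : σ → α → Option σ)
    (hM : ∀ q q' r a, M q a = some r → M q' a = some r → q = q') (u : List α) :
    ∀ q q' r : σ, run M q u = some r → run M q' u = some r → q = q' := by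
  induction u with
  | nil =>
      intro q q' r h1 h2
      simp only [run, Option.some.injEq] at h1 h2
      rw [h1, h2]
  | cons a u ih =>
      intro q q' r h1 h2
      simp only [run, Option.bind_eq_some_iff] at h1 h2
      obtain ⟨s, hs, h1⟩ := h1
      obtain ⟨s', hs', h2⟩ := h2
      obtain rfl := ih s s' r h1 h2
      exact hM q q' s a hs hs'

theorem reversible {σ : Type} [Finite σ] (M : σ → α → Option σ)
    (hM : ∀ q q' r a, M q a = some r → M q' a = some r → q = q') (i : σ) (T : Set σ)
    {A : Set (List α)} (hA : A.Nonempty)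
    (hacc : ∀ w, w ∈ A ↔ ∃ r ∈ T, run M i w = some r) : ∃ n ≤ 1, StopsAt A n := by
  refine one_step hA ?_
  rintro s ⟨c, -, hs⟩
  have h1 : ∀ n : ℕ, ∃ q : σ, run M i (wpow s n) = some q := by
    intro n
    obtain ⟨r, -, hr⟩ := (hacc _).1 (hs n)
    rw [run_append, Option.bind_eq_some_iff] at hr
    obtain ⟨q, hq, -⟩ := hr
    exact ⟨q, hq⟩
  choose q hq using h1
  obtain ⟨a, b, hab, hqab⟩ : ∃ a b : ℕ, a < b ∧ q a = q b := by
    obtain ⟨a, b, hab, h2⟩ := Finite.exists_ne_map_eq_of_infinite q
    rcases lt_or_gt_of_ne hab with h | h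
    · exact ⟨a, b, h, h2⟩
    · exact ⟨b, a, h, h2.symm⟩
  obtain ⟨j, rfl⟩ : ∃ j, b = (j + 1) + a := ⟨b - a - 1, by omega⟩
  have h2 := hq (j + 1 + a)
  rw [wpow_add, run_append, hq (j + 1), Option.bind_some, ← hqab] at h2
  have h3 : q (j + 1) = i := run_inj M hM _ _ _ _ h2 (hq a)
  have h4 := hq (j + 1)
  rw [h3] at h4
  refine ⟨j, fun x hx => ?_⟩
  rw [hacc, run_append, h4, Option.bind_some, ← hacc]
  exact hx

end basic

/-- The star removal procedure stops after at most one step for every nonempty language accepted by
a finite reversible automaton: a partial deterministic automaton in which every letter acts as a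
partial injective map on the states, with one initial state `i` and any set `T` of final states. -/
theorem result (α σ : Type) [Finite σ] (M : σ → α → Option σ) (i : σ) (T : Set σ)
    (A : Set (List α)) (hM : ∀ q q' r a, M q a = some r → M q' a = some r → q = q')
    (hA : A.Nonempty) (hacc : ∀ w, w ∈ A ↔ ∃ r ∈ T, run M i w = some r) :
    ∃ n ≤ 1, StopsAt A n :=
  reversible M hM i T hA hacc

end Pool.Agent.Results.MP_a69800_lc.ReversibleLanguages
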